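import Pool.Agent.H13.LN.Targets

/-!
# Module C1: the value depends only on the blocks
-/

set_option autoImplicit false

open Finset

namespace Pool.Agent.H35.LNT

open Pool.Agent.H59.LIN Pool.Agent.H13.LN

theorem nd_append {n : ℕ} (u v : Wd n) : nd (u ++ v) = nd u + nd v := by
  unfold nd
  rw [List.countP_append]

theorem nd_zero {n : ℕ} {r : Wd n} (h : nd r = 0) : ∀ x ∈ r, x.2 = false := by
  unfold nd at h
  rw [List.countP_eq_zero] at h
  intro x hx
  have := h x hx
  simpa using this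

/-- a word without double points and its inverse -/
theorem inv_eqv (hE : T_EQC) {n : ℕ} : ∀ r : Wd n, nd r = 0 → Eqv (r ++ r.reverse) [] := by
  intro r
  induction r with
  | nil =>
    intro _
    exact Relation.EqvGen.refl _
  | cons x r ih =>
    intro h
    have hx : x.2 = false := nd_zero h x List.mem_cons_self
    have hr : nd r = 0 := by
      unfold nd at h ⊢
      rw [List.countP_cons] at h
      omega
    have h1 := hE.1 n (r ++ r.reverse) [] [x] [x] (ih hr)
    have e1 : [x] ++ (r ++ r.reverse) ++ [x] = (x :: r) ++ (x :: r).reverse := by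
      simp
    rw [e1] at h1
    refine Relation.EqvGen.trans _ _ _ h1 ?_
    obtain ⟨i, b⟩ := x
    simp only at hx
    subst hx
    exact Relation.EqvGen.rel _ _ (St.ss [] [] i)

theorem pr_nil (hP : T_PRL) {n : ℕ} (σ : Equiv.Perm (Fin (n + 1))) {r : Wd n} (h : nd r = 0) :
    pr σ r = [] := by
  have h1 := hP.2.2.1 n σ r
  rw [h] at h1
  exact List.length_eq_zero_iff.1 h1

theorem pairs {α : Type} {a b a' b' : α} (ha : a ≠ b) (h1 : a = a' ∨ a = b')
    (h2 : b = a' ∨ b = b') : (a, b) = (a', b') ∨ (a, b) = Prod.swap (a', b') := by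
  rcases h1 with rfl | rfl
  · rcases h2 with rfl | rfl
    · exact absurd rfl ha
    · exact Or.inl rfl
  · rcases h2 with rfl | rfl
    · exact Or.inr rfl
    · exact absurd rfl ha

/-- the strands of two knots -/
theorem rho (hB : T_BLV) {n : ℕ} {f f' : Wd n} {p p' : Fin (n + 1)} (hf : Knot f)
    (hf' : Knot f') : ∃ ρ : Equiv.Perm (Fin (n + 1)),
      (∀ j : Fin (n + 1), ρ ((run f)^[(j : ℕ)] p) = (run f')^[(j : ℕ)] p') ∧
      ∀ q, ρ (run f q) = run f' (ρ q) := by
  obtain ⟨-, -, -, hs, hc⟩ := hB n f p hf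
  obtain ⟨-, -, -, hs', hc'⟩ := hB n f' p' hf'
  have hb : Function.Bijective (fun j : Fin (n + 1) => (run f)^[(j : ℕ)] p) :=
    Finite.injective_iff_bijective.1 (Finite.injective_iff_surjective.2 hs)
  have hb' : Function.Bijective (fun j : Fin (n + 1) => (run f')^[(j : ℕ)] p') :=
    Finite.injective_iff_bijective.1 (Finite.injective_iff_surjective.2 hs')
  have h1 : ∀ j : Fin (n + 1), ((Equiv.ofBijective _ hb).symm.trans (Equiv.ofBijective _ hb'))
      ((run f)^[(j : ℕ)] p) = (run f')^[(j : ℕ)] p' := by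
    intro j
    have e : (run f)^[(j : ℕ)] p = Equiv.ofBijective _ hb j := rfl
    rw [e, Equiv.trans_apply, Equiv.symm_apply_apply]
    rfl
  refine ⟨_, h1, fun q => ?_⟩
  obtain ⟨j, rfl⟩ := hs q
  rw [h1 j, ← Function.iterate_succ_apply' (run f), ← Function.iterate_succ_apply' (run f')]
  by_cases hj : (j : ℕ) + 1 < n + 1
  · exact h1 ⟨(j : ℕ) + 1, hj⟩
  · have hj' : (j : ℕ) + 1 = n + 1 := by
      have := j.2
      omega
    rw [Nat.succ_eq_add_one, hj', hc, hc']
    exact h1 0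

/-- (C1) the value depends only on the blocks. -/
theorem c1 (hRUN : T_RUN) (hEQC : T_EQC) (hSUR : T_SUR) (hPRL : T_PRL) (hNF : T_NF)
    (hEVP : T_EVP) (hBLV : T_BLV) (hGEQ : T_GEQ) : T_C1 := by
  intro B _ d g hg n f f' p p' hf hf' hnd hblk
  obtain ⟨ρ, hρ, hρf⟩ := rho (p := p) (p' := p') hBLV hf hf'
  obtain ⟨r, hr0, hr⟩ := hSUR n ρ
  set r' := r.reverse with hr'
  have hinv := inv_eqv hEQC r hr0
  have hr'0 : nd r' = 0 := by
    have h1 := (hEQC.2 n _ _ hinv).2
    rw [nd_append, hr0, zero_add] at h1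
    rw [h1]
    rfl
  have hrr : ∀ q, run r' (ρ q) = q := by
    intro q
    have h1 := congrFun (hEQC.2 n _ _ hinv).1 q
    rw [hRUN.1, hr] at h1
    exact h1
  -- the events
  have hev : ∀ q, ev 0 f q = ev 0 f' (ρ q) := by
    intro q
    obtain ⟨-, -, -, hs, -⟩ := hBLV n f p hf
    obtain ⟨j, rfl⟩ := hs q
    rw [hρ j]
    unfold blk at hblk
    exact congrFun (List.ofFn_injective hblk) j
  -- the word
  set f'' : Wd n := (r' ++ f) ++ r with hf''
  have hrun : run f'' = run f' := by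
    funext q
    rw [hf'', hRUN.1, hRUN.1, hr]
    obtain ⟨x, rfl⟩ := ρ.surjective q
    rw [hrr, hρf]
  have hpr : pr (Equiv.refl _) f'' = (pr (Equiv.refl _) f).map (fun x => (ρ x.1, ρ x.2)) := by
    have h1 : pr (Equiv.refl _) f'' = pr (rp r') f := by
      rw [hf'', hPRL.1, hPRL.1, pr_nil hPRL _ hr0, pr_nil hPRL _ hr'0, List.append_nil,
        List.nil_append, Equiv.refl_trans]
    have h2 := hPRL.2.1 n (Equiv.refl _) (rp r') f
    rw [Equiv.trans_refl] at h2
    rw [h1, h2]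
    congr 1
    funext x
    have h3 : ∀ y, (rp r').symm y = ρ y := by
      intro y
      rw [Equiv.symm_apply_eq, hRUN.2.2.1, hrr]
    rw [h3, h3]
  have hget : ∀ (k : ℕ) (x : Fin (n + 1) × Fin (n + 1)), (pr (Equiv.refl _) f)[k]? = some x → ∃ y,
      (pr (Equiv.refl _) f')[k]? = some y ∧
      ((ρ x.1, ρ x.2) = y ∨ (ρ x.1, ρ x.2) = Prod.swap y) := by
    intro k x hx
    have hne : x.1 ≠ x.2 := hPRL.2.2.2 n _ f x (List.mem_of_getElem? hx)
    have h1 : k ∈ ev 0 f x.1 := (hEVP n f x.1 k).2 ⟨x, hx, Or.inl rfl⟩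
    have h2 : k ∈ ev 0 f x.2 := (hEVP n f x.2 k).2 ⟨x, hx, Or.inr rfl⟩
    rw [hev] at h1 h2
    obtain ⟨y, hy, hy1⟩ := (hEVP n f' _ k).1 h1
    obtain ⟨z, hz, hz1⟩ := (hEVP n f' _ k).1 h2
    rw [hy] at hz
    obtain rfl : y = z := Option.some.inj hz
    refine ⟨y, hy, ?_⟩
    obtain ⟨y1, y2⟩ := y
    exact pairs (fun h => hne (ρ.injective h)) hy1 hz1
  have hget' : ∀ (k : ℕ) (x : Fin (n + 1) × Fin (n + 1)), (pr (Equiv.refl _) f')[k]? = some x → k < nd f := by
    intro k x hx
    have h1 : k ∈ ev 0 f' x.1 := (hEVP n f' x.1 k).2 ⟨x, hx, Or.inl rfl⟩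
    obtain ⟨q, hq⟩ := ρ.surjective x.1
    rw [← hq, ← hev] at h1
    obtain ⟨y, hy, -⟩ := (hEVP n f _ k).1 h1
    rw [← hPRL.2.2.1 n (Equiv.refl _) f]
    exact (List.getElem?_eq_some_iff.1 hy).1
  have hlen : (pr (Equiv.refl _) f).length = (pr (Equiv.refl _) f').length := by
    apply le_antisymm
    · by_contra hcon
      push Not at hcon
      obtain ⟨y, hy, -⟩ := hget (pr (Equiv.refl _) f').length _ (List.getElem?_eq_getElem hcon)
      rw [List.getElem?_eq_none le_rfl] at hy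
      exact absurd hy (by simp)
    · by_contra hcon
      push Not at hcon
      have h1 := hget' (pr (Equiv.refl _) f).length _ (List.getElem?_eq_getElem hcon)
      rw [hPRL.2.2.1] at h1
      exact lt_irrefl _ h1
  have hfor : List.Forall₂ (fun x y => x = y ∨ x = Prod.swap y) (pr (Equiv.refl _) f'')
      (pr (Equiv.refl _) f') := by
    rw [List.forall₂_iff_get]
    rw [hpr]
    refine ⟨by rw [List.length_map]; exact hlen, fun i h₁ h₂ => ?_⟩
    have h3 : i < (pr (Equiv.refl _) f).length := by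
      rw [List.length_map] at h₁
      exact h₁
    obtain ⟨y, hy, hy1⟩ := hget i _ (List.getElem?_eq_getElem h3)
    rw [List.getElem?_eq_getElem h₂] at hy
    obtain rfl := Option.some.inj hy
    rw [List.get_eq_getElem, List.get_eq_getElem, List.getElem_map]
    exact hy1
  have hEqv : Eqv f'' f' := hNF n f'' f' hrun hfor
  have hK'' : Knot f'' := hRUN.2.2.2.2.1 n _ _ f' f'' hrun.symm hf'
  have hnd'' : nd f'' = d := by
    rw [hf'', nd_append, nd_append, hr0, hr'0, hnd]
    ring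
  have g1 : g n f'' = g n f' := hGEQ B d g hg n f'' f' hEqv hK'' hnd''
  have g2 : g n f'' = g n (r ++ (r' ++ f)) := hg.conj n (r' ++ f) r hK'' hnd''
  have hK3 : Knot (r ++ (r' ++ f)) := hRUN.2.2.2.1 n _ (r' ++ f) r hK''
  have hnd3 : nd (r ++ (r' ++ f)) = d := by
    rw [nd_append, nd_append, hr0, hr'0, hnd]
    ring
  have hE3 : Eqv (r ++ (r' ++ f)) f := by
    have h1 := hEQC.1 n (r ++ r') [] [] f hinv
    rw [List.nil_append, List.nil_append, List.nil_append, List.append_assoc] at h1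
    exact h1
  have g3 : g n (r ++ (r' ++ f)) = g n f := hGEQ B d g hg n _ f hE3 hK3 hnd3
  rw [← g3, ← g2, g1]

end Pool.Agent.H35.LNT
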